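import Pool.Agent.K3h97.BP.Count

/-! Complex potentials in dimension `d ≥ 2` whose eigenvalue sums exceed `ħ^{-d}`: the potential
`V = i · 1_{|x| ≤ 1}` answers Q1 affirmatively for every `γ > 0` and every `0 ≤ σ ≤ d/2`. -/

set_option autoImplicit false

open MeasureTheory Filter Topology
open scoped ENNReal

namespace Pool.Agent.Results.MP_c84763_mp.BallPotential

open Pool.Agent.K3h97.BP

theorem result (d : ℕ) (hd : 2 ≤ d) :
    ∃ V : EuclideanSpace ℝ (Fin d) → ℂ,
      V = (Metric.closedBall 0 1).indicator (fun _ => Complex.I) ∧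
      (∀ p : ℝ≥0∞, MemLp V p volume) ∧
      ∀ γ σ : ℝ, 0 < γ → 0 ≤ σ → σ ≤ d / 2 →
        Tendsto (fun ħ : ℝ => ENNReal.ofReal (ħ ^ d) * eigSum V ħ γ σ) (𝓝[>] 0) (𝓝 ⊤) := by
  refine ⟨ballPot d, rfl, fun p => ?_, fun γ σ hγ hσ hσd => tendsto_top hd hγ hσ hσd⟩
  have h1 : MemLp (fun _ : EuclideanSpace ℝ (Fin d) => Complex.I) p
      (volume.restrict (Metric.closedBall 0 1)) := by
    have : IsFiniteMeasure (volume.restrict
        (Metric.closedBall (0 : EuclideanSpace ℝ (Fin d)) 1)) :=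
      ⟨by rw [Measure.restrict_apply_univ]; exact measure_closedBall_lt_top⟩
    exact memLp_const _
  exact (memLp_indicator_iff_restrict Metric.isClosed_closedBall.measurableSet).2 h1

end Pool.Agent.Results.MP_c84763_mp.BallPotential
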