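import Pool.Agent.K3h97.SR.Main

/-!
# Spaces with a base of subinfinite rank are metacompact (MP_03f7b8_gt, Q1)

Every subspace of an `R₀` space (in particular every subspace of a `T₁` space) with a base of
subinfinite rank is metacompact. No Noetherian hypothesis is needed. Without a separation axiom the
answer is negative, already for a countable `T₀` space with a base which is a chain.

Proof idea. Let `𝒱` be a subfamily of the base and call a maximal directed subfamily `I` of `𝒱` bad
if `⋃ I` is not contained in a member of the given open cover. A family of sets without infinite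
antichains is a finite union of directed subfamilies (Erdős, Tarski), so the unions `⋃ I` form a
point-finite family. Start with a neighbourhood assignment `V₀` which refines the cover. If `Vₙ` is
constructed, choose a point `p_I` in `⋃ I` for all bad maximal directed subfamilies `I` of the
range of `Vₙ`, and choose `Vₙ₊₁(x)` so small that it is contained in `Vₙ(x)` and in all the finitely
many sets `⋃ I` which contain `x`, and contains none of the corresponding points `p_I` other than
`x`. Then every bad `I'` of the level `n + 1` lies below a bad `I` of level `n`, and `p_I` is not in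
`⋃ I'`. If a point `y` were in `⋃ I` for bad families `I` of all levels, Koenig's lemma would give a
branch `I₀, I₁, …` of bad families, and suitable `Aₙ` in `Iₙ` which contain `y` and `p_{Iₙ}` would
form an infinite antichain. Hence the sets `⋃ I` for the good families `I` of level `n`, intersected
with the union of the bad ones of level `n - 1`, form a point-finite open refinement.
-/

set_option autoImplicit false

universe u

open Set TopologicalSpace

namespace Pool.Agent.Results.MP_03f7b8_gt.SubinfiniteRank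

/-- A family of sets is incomparable if no member is contained in another member. -/
def Incomparable {X : Type u} (Γ : Set (Set X)) : Prop :=
  ∀ A ∈ Γ, ∀ B ∈ Γ, A ≠ B → ¬ A ⊆ B

/-- `Γ` has subinfinite rank if every incomparable subfamily with nonempty intersection is
finite. -/
def HasSubinfiniteRank {X : Type u} (Γ : Set (Set X)) : Prop :=
  ∀ Γ' ⊆ Γ, Incomparable Γ' → (⋂₀ Γ').Nonempty → Γ'.Finite

/-- `X` is metacompact if every open cover has a point-finite open refinement. -/
def Metacompact (X : Type u) [TopologicalSpace X] : Prop :=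
  ∀ 𝒰 : Set (Set X), (∀ U ∈ 𝒰, IsOpen U) → ⋃₀ 𝒰 = univ →
    ∃ 𝒱 : Set (Set X), (∀ V ∈ 𝒱, IsOpen V) ∧ ⋃₀ 𝒱 = univ ∧ (∀ V ∈ 𝒱, ∃ U ∈ 𝒰, V ⊆ U) ∧
      ∀ x, {V | V ∈ 𝒱 ∧ x ∈ V}.Finite

lemma HasSubinfiniteRank.preimage {X Y : Type u} (f : Y → X) {Γ : Set (Set X)}
    (h : HasSubinfiniteRank Γ) : HasSubinfiniteRank (Set.preimage f '' Γ) := by
  intro Γ' hΓ' hinc ⟨y, hy⟩
  have hlift : ∀ A ∈ Γ', ∃ U ∈ Γ, f ⁻¹' U = A := fun A hA => hΓ' hA
  choose! U hU hUA using hlift
  have h1 : (U '' Γ').Finite := by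
    refine h _ ?_ ?_ ⟨f y, ?_⟩
    · rintro _ ⟨A, hA, rfl⟩
      exact hU A hA
    · rintro _ ⟨A, hA, rfl⟩ _ ⟨B, hB, rfl⟩ hAB hsub
      refine hinc A hA B hB (by rintro rfl; exact hAB rfl) ?_
      rw [← hUA A hA, ← hUA B hB]
      exact preimage_mono hsub
    · rintro _ ⟨A, hA, rfl⟩
      have := hy A hA
      rw [← hUA A hA] at this
      exact this
  have h2 : (Set.preimage f '' (U '' Γ')).Finite := h1.image _
  refine h2.subset fun A hA => ⟨U A, ⟨A, hA, rfl⟩, hUA A hA⟩

lemma r0 (X : Type u) [TopologicalSpace X] [R0Space X] (B : Set (Set X))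
    (hB : IsTopologicalBasis B) (hr : HasSubinfiniteRank B) : Metacompact X := by
  have hT1 : T1Space (SeparationQuotient X) := SeparationQuotient.t1Space_iff.2 inferInstance
  let mk : X → SeparationQuotient X := SeparationQuotient.mk
  have hsat : ∀ U : Set X, IsOpen U → mk ⁻¹' (mk '' U) = U := fun U hU =>
    SeparationQuotient.preimage_image_mk_open hU
  have hsurj : Function.Surjective mk := SeparationQuotient.surjective_mk
  have hcont : Continuous mk := SeparationQuotient.continuous_mk
  have hopen : IsOpenMap mk := SeparationQuotient.isOpenMap_mk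
  let B' : Set (Set (SeparationQuotient X)) := {U | mk ⁻¹' U ∈ B}
  have hB' : IsTopologicalBasis B' := by
    refine isTopologicalBasis_of_isOpen_of_nhds ?_ ?_
    · intro U hU
      have h1 : IsOpen (mk ⁻¹' U) := hB.isOpen hU
      have h2 := hopen _ h1
      rwa [image_preimage_eq U hsurj] at h2
    · intro q U hq hU
      obtain ⟨x, rfl⟩ := hsurj q
      obtain ⟨W, hW, hxW, hWU⟩ := hB.exists_subset_of_mem_open (a := x) (u := mk ⁻¹' U) hq
        (hU.preimage hcont)
      refine ⟨mk '' W, ?_, ⟨x, hxW, rfl⟩, image_subset_iff.2 hWU⟩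
      change mk ⁻¹' (mk '' W) ∈ B
      rw [hsat W (hB.isOpen hW)]
      exact hW
  have hinj : Function.Injective (Set.preimage mk) := preimage_injective.2 hsurj
  have hr' : HasSubinfiniteRank B' := by
    intro Γ' hΓ' hinc ⟨q, hq⟩
    obtain ⟨y, rfl⟩ := hsurj q
    refine Finite.of_finite_image (f := Set.preimage mk) ?_ hinj.injOn
    refine hr _ ?_ ?_ ⟨y, ?_⟩
    · rintro _ ⟨A, hA, rfl⟩
      exact hΓ' hA
    · rintro _ ⟨A, hA, rfl⟩ _ ⟨C, hC, rfl⟩ hAC hsub
      refine hinc A hA C hC (by rintro rfl; exact hAC rfl) ?_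
      exact (preimage_subset_preimage_iff (by rw [hsurj.range_eq]; exact subset_univ _)).1 hsub
    · rintro _ ⟨A, hA, rfl⟩
      exact hq A hA
  have hmet : Metacompact (SeparationQuotient X) := Pool.Agent.K3h97.SR.main_t1 hB' hr'
  intro 𝒰 hU hcov
  obtain ⟨𝒱, h1, h2, h3, h4⟩ := hmet ((fun U => mk '' U) '' 𝒰)
    (by rintro _ ⟨U, hU1, rfl⟩; exact hopen U (hU U hU1)) (by
      refine eq_univ_of_forall fun q => ?_
      obtain ⟨x, rfl⟩ := hsurj q
      obtain ⟨U, hU1, hx⟩ : x ∈ ⋃₀ 𝒰 := by rw [hcov]; trivial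
      exact ⟨_, ⟨U, hU1, rfl⟩, x, hx, rfl⟩)
  refine ⟨(fun V => mk ⁻¹' V) '' 𝒱, ?_, ?_, ?_, ?_⟩
  · rintro _ ⟨V, hV, rfl⟩
    exact (h1 V hV).preimage hcont
  · refine eq_univ_of_forall fun x => ?_
    obtain ⟨V, hV, hx⟩ : mk x ∈ ⋃₀ 𝒱 := by rw [h2]; trivial
    exact ⟨_, ⟨V, hV, rfl⟩, hx⟩
  · rintro _ ⟨V, hV, rfl⟩
    obtain ⟨_, ⟨U, hU1, rfl⟩, hVU⟩ := h3 V hV
    refine ⟨U, hU1, ?_⟩
    have := preimage_mono (f := mk) hVU
    rwa [hsat U (hU U hU1)] at this
  · intro x
    refine ((h4 (mk x)).image (fun V => mk ⁻¹' V)).subset ?_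
    rintro _ ⟨⟨V, hV, rfl⟩, hx⟩
    exact ⟨V, ⟨hV, hx⟩, rfl⟩

/-- **Answer to Q1.** (1) Let `X` be an `R₀` space, for instance a `T₁` space, with a base of
subinfinite rank. Then `X` and every subspace of `X` are metacompact. (2) A separation axiom cannot
be dispensed with: there is a countable `T₀` space which is not metacompact and has a base of
subinfinite rank which is totally ordered by inclusion. -/
theorem result :
    (∀ (X : Type u) [TopologicalSpace X] [R0Space X] (B : Set (Set X)),
      IsTopologicalBasis B → HasSubinfiniteRank B → Metacompact X ∧ ∀ S : Set X, Metacompact S) ∧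
    ∃ (X : Type) (_ : TopologicalSpace X), Countable X ∧ T0Space X ∧ ¬ Metacompact X ∧
      ∃ B : Set (Set X), IsTopologicalBasis B ∧ HasSubinfiniteRank B ∧
        ∀ U ∈ B, ∀ V ∈ B, U ⊆ V ∨ V ⊆ U := by
  have h1 : ∀ (X : Type u) [TopologicalSpace X] [R0Space X] (B : Set (Set X)),
      IsTopologicalBasis B → HasSubinfiniteRank B →
        Metacompact X ∧ ∀ S : Set X, Metacompact S := by
    intro X _ _ B hB hr
    refine ⟨r0 X B hB hr, fun S => ?_⟩
    exact r0 S (Set.preimage ((↑) : S → X) '' B) (hB.isInducing Topology.IsInducing.subtypeVal)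
      (hr.preimage _)
  refine ⟨h1, ?_⟩
  let t : TopologicalSpace ℕ :=
    { IsOpen := fun s => IsLowerSet s
      isOpen_univ := isLowerSet_univ
      isOpen_inter := fun s u hs hu => hs.inter hu
      isOpen_sUnion := fun S hS => isLowerSet_sUnion hS }
  have hopen : ∀ s : Set ℕ, @IsOpen ℕ t s ↔ IsLowerSet s := fun s => Iff.rfl
  have hIic : ∀ n : ℕ, @IsOpen ℕ t (Set.Iic n) := fun n => isLowerSet_Iic n
  refine ⟨ℕ, t, inferInstance, ?_, ?_, Set.range Set.Iic, ?_, ?_, ?_⟩
  · refine @T0Space.mk ℕ t fun x y hxy => ?_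
    have h1 := (@inseparable_iff_forall_isOpen ℕ t x y).1 hxy (Set.Iic x) (hIic x)
    have h2 := (@inseparable_iff_forall_isOpen ℕ t x y).1 hxy (Set.Iic y) (hIic y)
    exact le_antisymm (h2.2 (Set.mem_Iic.2 le_rfl)) (h1.1 (Set.mem_Iic.2 le_rfl))
  · intro hmet
    obtain ⟨𝒱, h1, h2, h3, h4⟩ := hmet (Set.range Set.Iic)
      (by rintro _ ⟨n, rfl⟩; exact hIic n) (by
        refine Set.eq_univ_of_forall fun n => ⟨_, ⟨n, rfl⟩, Set.mem_Iic.2 le_rfl⟩)
    -- all nonempty members contain `0`
    have hfin : 𝒱.Finite := by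
      refine ((h4 0).union (Set.finite_singleton ∅)).subset fun V hV => ?_
      rcases Set.eq_empty_or_nonempty V with rfl | ⟨n, hn⟩
      · right; rfl
      · left
        exact ⟨hV, (hopen V).1 (h1 V hV) (Nat.zero_le n) hn⟩
    have hbd : ∀ V ∈ 𝒱, V.Finite := by
      intro V hV
      obtain ⟨_, ⟨n, rfl⟩, hVn⟩ := h3 V hV
      exact (Set.finite_Iic n).subset hVn
    have : (⋃₀ 𝒱).Finite := hfin.sUnion hbd
    rw [h2] at this
    exact Set.infinite_univ this
  · refine @TopologicalSpace.isTopologicalBasis_of_isOpen_of_nhds ℕ t _ ?_ ?_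
    · rintro _ ⟨n, rfl⟩
      exact hIic n
    · intro a u ha hu
      exact ⟨Set.Iic a, ⟨a, rfl⟩, Set.mem_Iic.2 le_rfl, fun b hb => (hopen u).1 hu hb ha⟩
  · intro Γ' hΓ' hinc _
    refine Set.Subsingleton.finite fun U hU V hV => ?_
    by_contra hne
    obtain ⟨m, rfl⟩ := hΓ' hU
    obtain ⟨n, rfl⟩ := hΓ' hV
    rcases le_total m n with h | h
    · exact hinc _ hU _ hV hne (Set.Iic_subset_Iic.2 h)
    · exact hinc _ hV _ hU (Ne.symm hne) (Set.Iic_subset_Iic.2 h)
  · rintro _ ⟨m, rfl⟩ _ ⟨n, rfl⟩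
    rcases le_total m n with h | h
    · exact Or.inl (Set.Iic_subset_Iic.2 h)
    · exact Or.inr (Set.Iic_subset_Iic.2 h)

end Pool.Agent.Results.MP_03f7b8_gt.SubinfiniteRank
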